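import Pool.Agent.Q210.RWT.Asm
import Pool.Agent.Q210.RWT.TBd
import Pool.Agent.Q210.RWT.TCS
import Pool.Agent.Q210.RWT.TChe
import Pool.Agent.Q210.RWT.TCls
import Pool.Agent.Q210.RWT.TCross
import Pool.Agent.Q210.RWT.TDet1
import Pool.Agent.Q210.RWT.TDet2
import Pool.Agent.Q210.RWT.TDie
import Pool.Agent.Q210.RWT.TExN
import Pool.Agent.Q210.RWT.TExS
import Pool.Agent.Q210.RWT.TExZ
import Pool.Agent.Q210.RWT.TExist
import Pool.Agent.Q210.RWT.TExp
import Pool.Agent.Q210.RWT.TGrow
import Pool.Agent.Q210.RWT.TInd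
import Pool.Agent.Q210.RWT.TLast
import Pool.Agent.Q210.RWT.TLen
import Pool.Agent.Q210.RWT.TLow
import Pool.Agent.Q210.RWT.TMean2
import Pool.Agent.Q210.RWT.TMeas
import Pool.Agent.Q210.RWT.TOsc
import Pool.Agent.Q210.RWT.TPer
import Pool.Agent.Q210.RWT.TReach
import Pool.Agent.Q210.RWT.TRecZ
import Pool.Agent.Q210.RWT.TRep
import Pool.Agent.Q210.RWT.TStep2
import Pool.Agent.Q210.RWT.TSum
import Pool.Agent.Q210.RWT.TSurv
import Pool.Agent.Q210.RWT.TTot
import Pool.Agent.Q210.RWT.TTot0
import Pool.Agent.Q210.RWT.TZ1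
import Pool.Agent.Q210.RWT.TZ2
import Pool.Agent.Q210.RWT.TZ3

/-!
# MP_c4c6a0_pr: rotor walks on d-ary trees in the uniform shift model

The definitions (`V`, `nb`, `walk`, `Recurrent`, `Nondeg`, `Per`, `Unif`, `sh`, `cfg`, `ex`) are in
`Pool/Agent/Q210/RWT/Stmts.lean`.

(1) If at most a quarter of the entries of a period is `0`, the walk is transient a.s.; (2) so in
particular for `d ≥ 3` and every sequence in whose period all entries occur equally often;
(3) for the period word `(0^(d²+1), 1, ..., d)` the walk is recurrent a.s., for every `d`, so the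
statement of Q1 for ALL nondegenerate periodic sequences is false; (4) the model exists.

Proof: the numbers of entries into the vertices from their parents until `n` departures along the
self-loop form a tree-indexed process (`flow`) which is finite iff the walk makes `n` such
departures. Generation totals: if `4 n₀ ≤ L`, double counting and Cauchy-Schwarz give mean growth by
a factor `> 1 + 1/(2 n₀)`, with variance at most `L²` times the total, so by Chebyshev
`P(flow from n dies) = O(1/n)`. In the example the mean is contracted.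
-/

set_option autoImplicit false

open MeasureTheory ProbabilityTheory Finset

namespace Pool.Agent.Results.MP_c4c6a0_pr.ShiftModel

open Pool.Agent.Q210.RWT

theorem result :
    (∀ (d L : ℕ) (a : ℕ → Fin (d + 1)), 1 ≤ L → Nondeg a → Per L a →
      4 * ((range L).filter (fun x => a x = 0)).card ≤ L →
      ∀ (Ω : Type) [MeasurableSpace Ω] (P : Measure Ω) [IsProbabilityMeasure P]
        (K : V d → Ω → ℕ), Unif P d L K → ∀ᵐ ω ∂P, ¬ Recurrent (cfg a K ω)) ∧
    (∀ (d L : ℕ) (a : ℕ → Fin (d + 1)), 3 ≤ d → 1 ≤ L → Nondeg a → Per L a →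
      (∀ r : Fin (d + 1), ((range L).filter (fun x => a x = r)).card =
        ((range L).filter (fun x => a x = 0)).card) →
      ∀ (Ω : Type) [MeasurableSpace Ω] (P : Measure Ω) [IsProbabilityMeasure P]
        (K : V d → Ω → ℕ), Unif P d L K → ∀ᵐ ω ∂P, ¬ Recurrent (cfg a K ω)) ∧
    (∀ d : ℕ, Nondeg (ex d) ∧ Per (d ^ 2 + d + 1) (ex d) ∧
      ∀ (Ω : Type) [MeasurableSpace Ω] (P : Measure Ω) [IsProbabilityMeasure P]
        (K : V d → Ω → ℕ), Unif P d (d ^ 2 + d + 1) K →
          ∀ᵐ ω ∂P, Recurrent (cfg (ex d) K ω)) ∧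
    (∀ d L : ℕ, 1 ≤ L → ∃ (Ω : Type) (_ : MeasurableSpace Ω) (P : Measure Ω)
      (_ : IsProbabilityMeasure P) (K : V d → Ω → ℕ), Unif P d L K) := by
  have z1 := PTZ1.main
  have z2 := PTZ2.main
  have z3 := PTZ3.main
  have hCross := PTCross.main
  have hLast := PTLast.main
  have hRecZ := PTRecZ.main
  have hReach := PTReach.main
  have hDet1 := PTDet1.main hCross hLast PTLen.main hReach z1
  have hBd := PTBd.main hCross hLast z2
  have hDet2 := PTDet2.main hBd PTSum.main hRecZ
  have hLow := PTLow.main (PTCls.main z2) PTRep.main PTCS.main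
  have hMean := PTMean2.main hLow (Pool.Agent.Q210.RWT.TPer.main z2)
  have hOsc := PTOsc.main z1 z2
  have hExS := PTExS.main PTExZ.main
  have hTot := Pool.Agent.Q210.RWT.TTot.main z1 z3
  have hExp := PTExp.main PTInd.main hTot PTMeas.main
  have hDie := PTDie.main hExp PTMeas.main
  have hStep := PTStep2.main PTChe.main PTInd.main hTot hMean hOsc PTMeas.main
  have hSurv := PTSurv.main hStep PTGrow.main
  exact assembly hDet1 hDet2 PTTot0.main hSurv hDie PTExN.main hExS PTExist.main

end Pool.Agent.Results.MP_c4c6a0_pr.ShiftModel
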